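import Mathlib

set_option autoImplicit false

namespace Pool.Agent.Results.MP_6fd06d_co.Odd

open scoped MatrixGroups LinearAlgebra.Projectivization

/-- the derangements of `G` acting on `Ω` -/
def Der (G Ω : Type) [Group G] [MulAction G Ω] : Set G := {g | ∀ x : Ω, g • x ≠ x}

/-- the derangements that send `i` to `j` -/
def DerTo (G : Type) {Ω : Type} [Group G] [MulAction G Ω] (i j : Ω) : Set G :=
  {g | g ∈ Der G Ω ∧ g • i = j}

/-- the Cayley graph: distinct `g`, `h` are adjacent when `h g⁻¹` or `g h⁻¹` lies in `S` -/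
def Cay {G : Type} [Group G] (S : Set G) : SimpleGraph G :=
  SimpleGraph.fromRel fun g h => h * g⁻¹ ∈ S

/-- strict EKR robustness of the action of `G` on `Ω` -/
def StrictRobust (G Ω : Type) [Group G] [MulAction G Ω] : Prop :=
  ∀ D : Set G, D ⊆ Der G Ω → (∀ g ∈ D, g⁻¹ ∈ D) →
    (¬ ∃ i j : Ω, i ≠ j ∧ DerTo G i j ∪ DerTo G j i ⊆ D) →
    (Cay (Der G Ω \ D)).indepNum = Nat.card G / Nat.card Ω

theorem general {G Ω : Type} [Group G] [MulAction G Ω] [Finite G] (h3 : 3 ≤ Nat.card Ω)
    (h2 : ∀ a b c d : Ω, a ≠ b → c ≠ d → ∃ g : G, g • a = c ∧ g • b = d)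
    (χ : G →* ℤˣ) (C : G) (hC : C ∈ Der G Ω) (hχ : χ C ≠ 1) : ¬ StrictRobust G Ω := by
  classical
  intro h
  have hD := h (Der G Ω ∩ χ.ker) Set.inter_subset_left
    (fun g hg => ⟨fun x e => hg.1 x (by rw [inv_smul_eq_iff] at e; exact e.symm),
      χ.ker.inv_mem hg.2⟩) (by
    rintro ⟨i, j, hij, hs⟩
    obtain ⟨g, g1, g2⟩ := h2 i (C • i) i j (hC i).symm hij
    have : g * C * g⁻¹ ∈ Der G Ω ∩ χ.ker := hs (Or.inl ⟨fun x e => hC (g⁻¹ • x) (by
      rw [mul_smul, mul_smul, ← eq_inv_smul_iff] at e; exact e), by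
      rw [mul_smul, mul_smul, inv_smul_eq_iff.mpr g1.symm, g2]⟩)
    have h1 : χ (g * C * g⁻¹) = 1 := this.2
    rw [map_mul, map_mul, map_inv, mul_comm (χ g), mul_inv_cancel_right] at h1
    exact hχ h1)
  have hi : (Cay (Der G Ω \ (Der G Ω ∩ χ.ker))).IsIndepSet
      ((Set.toFinite (χ.ker : Set G)).toFinset : Finset G) := by
    intro x hx y hy _ ha
    simp only [Set.Finite.coe_toFinset, SetLike.mem_coe] at hx hy
    rcases ((SimpleGraph.fromRel_adj _ _ _).mp ha).2 with e | e
    · exact e.2 ⟨e.1, χ.ker.mul_mem hy (χ.ker.inv_mem hx)⟩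
    · exact e.2 ⟨e.1, χ.ker.mul_mem hx (χ.ker.inv_mem hy)⟩
  have k1 := hi.card_le_indepNum
  rw [hD, ← Set.ncard_eq_toFinset_card, ← Nat.card_coe_set_eq] at k1
  have k2 := χ.ker.card_mul_index
  have k3 : χ.ker.index ≤ 2 := by
    rw [Subgroup.index_ker]
    calc Nat.card χ.range ≤ Nat.card ℤˣ := Nat.card_le_card_of_injective _ Subtype.val_injective
      _ = 2 := by simp
  have k4 : 0 < Nat.card χ.ker := Nat.card_pos
  have k5 := Nat.div_mul_le_self (Nat.card G) (Nat.card Ω)
  have k6 : Nat.card (χ.ker : Set G) = Nat.card χ.ker := rfl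
  rw [k6] at k1
  nlinarith

theorem result (K : Type) [Field K] [Fintype K] (hK : Odd (Fintype.card K)) :
    ¬ StrictRobust PGL(2, K) (ℙ K (Fin 2 → K)) := by
  classical
  have hc : ringChar K ≠ 2 := fun e => by
    have := FiniteField.even_card_iff_char_two.mp e
    obtain ⟨k, hk⟩ := hK
    omega
  obtain ⟨d, hd⟩ := quadraticChar_exists_neg_one' hc
  obtain ⟨t, ht⟩ : ∃ t : K, ∀ c : Kˣ, (c : K) + d / c ≠ t := by
    by_contra hn
    push Not at hn
    have := Fintype.card_le_of_surjective (fun c : Kˣ => (c : K) + d / c) hn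
    rw [Fintype.card_units] at this
    have := Fintype.card_pos (α := K)
    omega
  have : Finite PGL(2, K) := Finite.of_surjective _ Matrix.ProjGenLinGroup.mk_surjective
  let f : GL (Fin 2) K →* ℤˣ :=
    (Units.map (quadraticChar K).toMonoidHom).comp Matrix.GeneralLinearGroup.det
  have hf : f.comp (Matrix.GeneralLinearGroup.scalar (Fin 2)) = 1 := by
    ext u
    have := quadraticChar_sq_one' u.ne_zero
    simpa [f] using this
  let C : GL (Fin 2) K := Matrix.GeneralLinearGroup.mkOfDetNeZero !![0, -(d : K); 1, t]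
    (by simp [Matrix.det_fin_two])
  refine general ?_ (fun a b c e hab hce => ?_) (Matrix.ProjGenLinGroup.lift f hf)
    (Matrix.ProjGenLinGroup.mk C) (fun x => ?_) ?_
  · rw [Projectivization.card_of_finrank_two _ _ (by simp)]
    have := Finite.one_lt_card (α := K)
    omega
  · obtain ⟨g, g1, g2⟩ := MulAction.is_two_pretransitive_iff.mp
      (inferInstance : MulAction.IsMultiplyPretransitive (Matrix.SpecialLinearGroup (Fin 2) K)
        (ℙ K (Fin 2 → K)) 2) hab hce
    have key : ∀ x : ℙ K (Fin 2 → K),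
        Matrix.ProjGenLinGroup.mk (Matrix.SpecialLinearGroup.toGL g) • x = g • x := by
      intro x
      induction x using Projectivization.ind with | _ v hv => rfl
    exact ⟨_, (key a).trans g1, (key b).trans g2⟩
  · induction x using Projectivization.ind with | _ v hv =>
    rw [Projectivization.PGL.mk_smul_mk, Ne, Projectivization.mk_eq_mk_iff]
    rintro ⟨c, hc⟩
    have e0 := congrFun hc 0
    have e1 := congrFun hc 1
    simp [C, Units.smul_def, Matrix.mulVec, dotProduct, Fin.sum_univ_two] at e0 e1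
    have h1 : v 1 ≠ 0 := fun e => hv (by
      funext i
      fin_cases i
      · simpa [e] using e1.symm
      · exact e)
    apply ht c
    have hc0 := c.ne_zero
    field_simp
    apply mul_right_cancel₀ h1
    linear_combination (c : K) * e1 + e0
  · rw [Matrix.ProjGenLinGroup.lift_mk]
    intro e
    have := congrArg Units.val e
    simp [f, C, Matrix.det_fin_two] at this hd
    rw [hd] at this
    exact absurd this (by decide)

end Pool.Agent.Results.MP_6fd06d_co.Odd
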